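import Pool.Agent.H861R3.BeerLin
import Pool.Agent.H217R3.Beer.Ana

/-!
The fold lemma (Cauchy-Schwarz / pigeonhole along the line through two coordinates).
-/

set_option autoImplicit false
set_option linter.unusedSectionVars false

namespace Pool.Agent.H861R3.Beer

open Set MeasureTheory
open scoped ENNReal

variable {ι : Type*} [Fintype ι] [DecidableEq ι]
variable {E : Type*} [NormedAddCommGroup E] [NormedSpace ℝ E] [MeasurableSpace E] [BorelSpace E]
  [FiniteDimensional ℝ E]

/-- tuples of points of `S` such that all index sets in the family `H` have their hull in `S` -/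
def Gd (S : Set E) (H : Finset ι → Prop) : Set (ι → E) :=
  {x | (∀ l, x l ∈ S) ∧ ∀ W, H W → convexHull ℝ (x '' (W : Set ι)) ⊆ S}

theorem mem_hull_image (x : ι → E) (W : Finset ι) (y : E) :
    y ∈ convexHull ℝ (x '' (W : Set ι)) ↔
      ∃ w : ι → ℝ, (∀ l, 0 ≤ w l) ∧ ∑ l ∈ W, w l = 1 ∧ ∑ l ∈ W, w l • x l = y := by
  constructor
  · intro hy
    have hconv : Convex ℝ {y : E | ∃ w : ι → ℝ, (∀ l, 0 ≤ w l) ∧ ∑ l ∈ W, w l = 1 ∧
        ∑ l ∈ W, w l • x l = y} := by
      rintro y1 ⟨w1, h1, h2, h3⟩ y2 ⟨w2, h4, h5, h6⟩ a b ha hb hab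
      refine ⟨fun l => a * w1 l + b * w2 l, fun l => ?_, ?_, ?_⟩
      · have := h1 l; have := h4 l; positivity
      · rw [Finset.sum_add_distrib, ← Finset.mul_sum, ← Finset.mul_sum, h2, h5]; linarith
      · simp only [add_smul, mul_smul]
        rw [Finset.sum_add_distrib, ← Finset.smul_sum, ← Finset.smul_sum, h3, h6]
    refine convexHull_min ?_ hconv hy
    rintro _ ⟨l, hl, rfl⟩
    refine ⟨fun m => if m = l then 1 else 0, fun m => by dsimp only; split_ifs <;> norm_num, ?_, ?_⟩
    · rw [Finset.sum_ite_eq']; simp only [Finset.mem_coe.1 hl, if_true]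
    · simp only [ite_smul, one_smul, zero_smul]
      rw [Finset.sum_ite_eq']; simp only [Finset.mem_coe.1 hl, if_true]
  · rintro ⟨w, h1, h2, rfl⟩
    exact (convex_convexHull ℝ _).sum_mem (fun l _ => h1 l) h2
      (fun l hl => subset_convexHull ℝ _ (mem_image_of_mem x hl))

theorem hull_null (μ : Measure (ι → E)) [SFinite μ] (S : Set E) (hS : MeasurableSet S)
    (W : Finset ι) :
    NullMeasurableSet {x : ι → E | convexHull ℝ (x '' (W : Set ι)) ⊆ S} μ := by
  refine NullMeasurableSet.mono_ac ?_ (absolutelyContinuous_toFinite μ)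
  rw [← NullMeasurableSet.compl_iff]
  apply Pool.Agent.H217R3.Beer.analytic_null
  have e : {x : ι → E | convexHull ℝ (x '' (W : Set ι)) ⊆ S}ᶜ =
      Prod.fst '' {p : (ι → E) × (ι → ℝ) | (∀ l, 0 ≤ p.2 l) ∧ ∑ l ∈ W, p.2 l = 1 ∧
        ∑ l ∈ W, p.2 l • p.1 l ∈ Sᶜ} := by
    ext x
    simp only [mem_compl_iff, mem_ofPred_eq, mem_image, Prod.exists, exists_and_right,
      exists_eq_right]
    rw [Set.not_subset]
    constructor
    · rintro ⟨y, hy, hyS⟩
      rw [mem_hull_image] at hy
      obtain ⟨w, h1, h2, h3⟩ := hy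
      exact ⟨w, h1, h2, by rw [h3]; exact hyS⟩
    · rintro ⟨w, h1, h2, h3⟩
      exact ⟨_, (mem_hull_image x W _).2 ⟨w, h1, h2, rfl⟩, h3⟩
  rw [e]
  refine AnalyticSet.image_of_continuous ?_ continuous_fst
  apply MeasurableSet.analyticSet
  have m1 : MeasurableSet {p : (ι → E) × (ι → ℝ) | ∀ l, 0 ≤ p.2 l} := by
    apply IsClosed.measurableSet
    simp only [ofPred_forall]
    exact isClosed_iInter fun l => isClosed_le continuous_const (by fun_prop)
  have m2 : MeasurableSet {p : (ι → E) × (ι → ℝ) | ∑ l ∈ W, p.2 l = 1} := by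
    apply IsClosed.measurableSet
    exact isClosed_eq (by fun_prop) continuous_const
  have m3 : MeasurableSet {p : (ι → E) × (ι → ℝ) | ∑ l ∈ W, p.2 l • p.1 l ∈ Sᶜ} := by
    have : Continuous fun p : (ι → E) × (ι → ℝ) => ∑ l ∈ W, p.2 l • p.1 l := by fun_prop
    exact this.measurable hS.compl
  exact m1.inter (m2.inter m3)

theorem Gd_null (μ : Measure (ι → E)) [SFinite μ] (S : Set E) (hS : MeasurableSet S)
    (H : Finset ι → Prop) : NullMeasurableSet (Gd S H) μ := by
  have e : Gd S H = (⋂ l : ι, {x : ι → E | x l ∈ S}) ∩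
      ⋂ W : Finset ι, ⋂ _ : H W, {x : ι → E | convexHull ℝ (x '' (W : Set ι)) ⊆ S} := by
    ext x; simp [Gd]
  rw [e]
  refine NullMeasurableSet.inter ?_ ?_
  · exact (MeasurableSet.iInter fun l => measurable_pi_apply l hS).nullMeasurableSet
  · exact NullMeasurableSet.iInter fun W => NullMeasurableSet.iInter fun _ => hull_null μ S hS W

theorem Gd_anti (S : Set E) (H H' : Finset ι → Prop) (h : ∀ W, H' W → H W) :
    Gd S H ⊆ Gd S H' := fun _ hx => ⟨hx.1, fun W hW => hx.2 W (h W hW)⟩

theorem bonf {X : Type*} [MeasurableSpace X] (μ : Measure X) (A : ℕ → Set X)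
    (hA : ∀ p, NullMeasurableSet (A p) μ) (β : ℝ≥0∞) (n : ℕ)
    (hβ : ∀ p q, p < q → q < n → μ (A p ∩ A q) ≤ β) :
    ∑ p ∈ Finset.range n, μ (A p) ≤ μ (⋃ p ∈ Finset.range n, A p) + (n : ℝ≥0∞) ^ 2 * β := by
  induction n with
  | zero => simp
  | succ n ih =>
    have ih' := ih fun p q h1 h2 => hβ p q h1 (by omega)
    rw [Finset.sum_range_succ]
    have e : (⋃ p ∈ Finset.range (n + 1), A p) = (⋃ p ∈ Finset.range n, A p) ∪ A n := by
      ext x
      simp only [Finset.mem_range, mem_iUnion, exists_prop, mem_union]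
      constructor
      · rintro ⟨p, hp, hx⟩
        rcases Nat.lt_succ_iff_lt_or_eq.1 hp with h | h
        · exact Or.inl ⟨p, h, hx⟩
        · subst h; exact Or.inr hx
      · rintro (⟨p, hp, hx⟩ | hx)
        · exact ⟨p, by omega, hx⟩
        · exact ⟨n, by omega, hx⟩
    have hint : μ ((⋃ p ∈ Finset.range n, A p) ∩ A n) ≤ n * β := by
      have : (⋃ p ∈ Finset.range n, A p) ∩ A n = ⋃ p ∈ Finset.range n, (A p ∩ A n) := by
        simp only [iUnion_inter]
      rw [this]
      refine (measure_biUnion_finset_le _ _).trans ?_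
      refine (Finset.sum_le_sum fun p hp => hβ p n (Finset.mem_range.1 hp) (by omega)).trans ?_
      simp
    have hadd := measure_union_add_inter₀ (μ := μ) (⋃ p ∈ Finset.range n, A p) (hA n)
    rw [← e] at hadd
    calc ∑ p ∈ Finset.range n, μ (A p) + μ (A n)
        ≤ (μ (⋃ p ∈ Finset.range n, A p) + (n : ℝ≥0∞) ^ 2 * β) + μ (A n) := by gcongr
      _ = (μ (⋃ p ∈ Finset.range n, A p) + μ (A n)) + (n : ℝ≥0∞) ^ 2 * β := by ring
      _ = (μ (⋃ p ∈ Finset.range (n + 1), A p) + μ ((⋃ p ∈ Finset.range n, A p) ∩ A n)) +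
            (n : ℝ≥0∞) ^ 2 * β := by rw [hadd]
      _ ≤ (μ (⋃ p ∈ Finset.range (n + 1), A p) + n * β) + (n : ℝ≥0∞) ^ 2 * β := by gcongr
      _ ≤ μ (⋃ p ∈ Finset.range (n + 1), A p) + ((n + 1 : ℕ) : ℝ≥0∞) ^ 2 * β := by
          rw [add_assoc, ← add_mul]
          gcongr
          push_cast
          calc (n : ℝ≥0∞) + n ^ 2 ≤ n + n ^ 2 + (n + 1) := le_self_add
            _ = (n + 1) ^ 2 := by ring

theorem mem_seg (c v : E) (u s : ℝ) (h1 : u ≤ s) (h2 : s ≤ u + 1) :
    c + s • v ∈ segment ℝ (c + u • v) (c + (u + 1) • v) := by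
  refine ⟨1 - (s - u), s - u, by linarith, by linarith, by ring, ?_⟩
  module

variable (μ : Measure (ι → E)) [μ.IsAddHaarMeasure]

theorem TT_null {i j : ι} (hij : i ≠ j) (p q : ℝ) (hpq : p < q) (B : Set (ι → E))
    (hB : NullMeasurableSet B μ) : NullMeasurableSet (TT i j p q ⁻¹' B) μ := by
  refine hB.preimage ⟨(TT_continuous i j p q).measurable, ?_⟩
  refine Measure.AbsolutelyContinuous.mk fun s hs h => ?_
  rw [Measure.map_apply (TT_continuous i j p q).measurable hs, measure_TT μ hij p q hpq, h,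
    mul_zero]

theorem fold_core {i j : ι} (hij : i ≠ j) (S : Set E) (hS : MeasurableSet S)
    (V : ℝ≥0∞) (hV : μ (Set.pi univ fun _ => S) = V) (hVf : V ≠ ⊤)
    (H : Finset ι → Prop) (W0 : Finset ι) (hW0 : H W0) (hi : i ∈ W0) (hj : j ∈ W0)
    (hH : ∀ W, H W → j ∈ W → i ∈ W) (n : ℕ) (hn0 : 0 < n) (a : ℝ≥0∞)
    (hn : 2 ^ (Module.finrank ℝ E) + 1 ≤ n * a) (ha : a * V ≤ μ (Gd S H)) :
    V ≤ ((n : ℝ≥0∞) ^ 2 * (2 * n) ^ (Module.finrank ℝ E)) *
      μ (Gd S fun W => H W ∨ H (W.map (Equiv.swap i j).toEmbedding)) := by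
  set d := Module.finrank ℝ E with hd
  set B := Gd S fun W => H W ∨ H (W.map (Equiv.swap i j).toEmbedding) with hB
  let u : ℕ → ℝ := fun p => (p : ℝ) / (2 * n)
  have hn' : (0 : ℝ) < n := by exact_mod_cast hn0
  have hu0 : ∀ p, 0 ≤ u p := fun p => by positivity
  have hu1 : ∀ p, p < n → u p ≤ 1 / 2 := by
    intro p hp
    have : (p : ℝ) ≤ n := by exact_mod_cast hp.le
    simp only [u]
    rw [div_le_iff₀ (by positivity)]
    linarith
  have hu2 : ∀ p q, p < q → u p + 1 / (2 * n) ≤ u q := by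
    intro p q hpq
    have : (p : ℝ) + 1 ≤ q := by exact_mod_cast hpq
    simp only [u]
    rw [← add_div]
    gcongr
  let A : ℕ → Set (ι → E) := fun p => TT i j (u p) (u p + 1) ⁻¹' (Gd S H)
  have hA : ∀ p, NullMeasurableSet (A p) μ := fun p =>
    TT_null μ hij _ _ (by linarith) _ (Gd_null μ S hS H)
  have hmA : ∀ p, μ (A p) = μ (Gd S H) := by
    intro p
    simp only [A]
    rw [measure_TT μ hij _ _ (by linarith)]
    simp
  have hP : μ (TT i j (1 / 2) 1 ⁻¹' (Set.pi univ fun _ => S)) = 2 ^ d * V := by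
    rw [measure_TT μ hij _ _ (by norm_num), hV]
    congr 1
    rw [← hd]
    have : ((1 - 1 / 2 : ℝ) ^ d)⁻¹ = 2 ^ d := by
      rw [← inv_pow]; norm_num
    rw [this, ENNReal.ofReal_pow (by norm_num)]
    simp
  have hAP : ∀ p, p < n → A p ⊆ TT i j (1 / 2) 1 ⁻¹' (Set.pi univ fun _ => S) := by
    intro p hp x hx
    obtain ⟨hx1, hx2⟩ := hx
    have hseg : ∀ s : ℝ, u p ≤ s → s ≤ u p + 1 → x i + s • x j ∈ S := by
      intro s h1 h2
      apply hx2 W0 hW0
      have h3 := mem_seg (x i) (x j) (u p) s h1 h2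
      refine segment_subset_convexHull
        (mem_image_of_mem (TT i j (u p) (u p + 1) x) (Finset.mem_coe.2 hi))
        (mem_image_of_mem (TT i j (u p) (u p + 1) x) (Finset.mem_coe.2 hj)) ?_
      simpa [TT, hij.symm] using h3
    intro l _
    by_cases h1 : l = i
    · subst h1
      simp only [TT, if_true]
      exact hseg _ (hu1 p hp) (by have := hu0 p; linarith)
    · by_cases h2 : l = j
      · subst h2
        simp only [TT, h1, if_false, if_true]
        exact hseg _ (by have := hu1 p hp; linarith) (by have := hu0 p; linarith)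
      · have := hx1 l
        simpa [TT, h1, h2] using this
  have hpair : ∀ p q, p < q → q < n → A p ∩ A q ⊆ TT i j (u p) (u q) ⁻¹' B := by
    rintro p q hpq hq x ⟨⟨hp1, hp2⟩, ⟨hq1, hq2⟩⟩
    have hupq : u p ≤ u q := by
      have := hu2 p q hpq
      have h0 : (0 : ℝ) ≤ 1 / (2 * n) := by positivity
      linarith
    have huq1 : u q ≤ u p + 1 := by
      have := hu1 q hq; have := hu0 p; linarith
    -- coordinates
    have z1 : ∀ l, l ≠ j → TT i j (u p) (u q) x l = TT i j (u p) (u p + 1) x l := by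
      intro l hl
      simp [TT, hl]
    have z2 : TT i j (u p) (u q) x j = TT i j (u q) (u q + 1) x i := by
      simp [TT, hij.symm]
    have z3 : ∀ l, l ≠ i → l ≠ j → TT i j (u p) (u q) x l = TT i j (u q) (u q + 1) x l := by
      intro l h1 h2
      simp [TT, h1, h2]
    have main : ∀ W, H W → convexHull ℝ (TT i j (u p) (u q) x '' (W : Set ι)) ⊆ S := by
      intro W hW
      refine subset_trans (convexHull_min ?_ (convex_convexHull ℝ _)) (hp2 W hW)
      rintro _ ⟨l, hl, rfl⟩
      by_cases h : l = j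
      · subst h
        have hiW : i ∈ W := hH W hW hl
        refine segment_subset_convexHull
          (mem_image_of_mem (TT i l (u p) (u p + 1) x) (Finset.mem_coe.2 hiW))
          (mem_image_of_mem (TT i l (u p) (u p + 1) x) hl) ?_
        have h3 := mem_seg (x i) (x l) (u p) (u q) hupq huq1
        simpa [TT, hij.symm] using h3
      · rw [z1 l h]
        exact subset_convexHull ℝ _ ⟨l, hl, rfl⟩
    refine ⟨fun l => ?_, fun W hW => ?_⟩
    · by_cases h : l = j
      · subst h; rw [z2]; exact hq1 i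
      · rw [z1 l h]; exact hp1 l
    · rcases hW with hW | hW
      · exact main W hW
      · by_cases hjW : j ∈ W.map (Equiv.swap i j).toEmbedding
        · have hiW := hH _ hW hjW
          have : W.map (Equiv.swap i j).toEmbedding = W := by
            rw [Finset.mem_map_equiv] at hjW hiW
            simp only [Equiv.symm_swap, Equiv.swap_apply_left, Equiv.swap_apply_right] at hjW hiW
            ext l
            rw [Finset.mem_map_equiv]
            simp only [Equiv.symm_swap]
            by_cases h1 : l = i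
            · subst h1; simp [hiW, hjW]
            · by_cases h2 : l = j
              · subst h2; simp [hiW, hjW]
              · rw [Equiv.swap_apply_of_ne_of_ne h1 h2]
          rw [this] at hW
          exact main W hW
        · refine subset_trans (convexHull_mono ?_) (hq2 _ hW)
          rintro _ ⟨l, hl, rfl⟩
          by_cases h1 : l = i
          · exfalso
            apply hjW
            rw [Finset.mem_map_equiv]
            simp only [Equiv.symm_swap, Equiv.swap_apply_right]
            rw [← h1]; exact hl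
          · by_cases h2 : l = j
            · refine ⟨i, ?_, ?_⟩
              · rw [Finset.mem_coe, Finset.mem_map_equiv]
                simp only [Equiv.symm_swap, Equiv.swap_apply_left]
                rw [← h2]; exact hl
              · rw [h2, z2]
            · refine ⟨l, ?_, (z3 l h1 h2).symm⟩
              rw [Finset.mem_coe, Finset.mem_map_equiv]
              simp only [Equiv.symm_swap]
              rw [Equiv.swap_apply_of_ne_of_ne h1 h2]; exact hl
  have hβ : ∀ p q, p < q → q < n → μ (A p ∩ A q) ≤ (2 * n) ^ d * μ B := by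
    intro p q hpq hq
    refine (measure_mono (hpair p q hpq hq)).trans ?_
    have h1 := hu2 p q hpq
    have h0 : (0 : ℝ) < 1 / (2 * n) := by positivity
    rw [measure_TT μ hij _ _ (by linarith), ← hd]
    gcongr
    have h2 : ((u q - u p) ^ d)⁻¹ ≤ (2 * n) ^ d := by
      rw [← inv_pow]
      have h3 : (u q - u p)⁻¹ ≤ 2 * n := by
        rw [inv_le_comm₀ (by linarith) (by positivity)]
        rw [one_div] at h1
        linarith
      have h4 : 0 ≤ (u q - u p)⁻¹ := inv_nonneg.2 (by linarith)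
      gcongr
    refine (ENNReal.ofReal_le_ofReal h2).trans ?_
    rw [ENNReal.ofReal_pow (by positivity), ENNReal.ofReal_mul (by norm_num)]
    simp
  have hbon := bonf μ A hA _ n hβ
  have hun : μ (⋃ p ∈ Finset.range n, A p) ≤ 2 ^ d * V := by
    rw [← hP]
    refine measure_mono (iUnion₂_subset fun p hp => hAP p (Finset.mem_range.1 hp))
  have hsum : (2 ^ d + 1) * V ≤ 2 ^ d * V + (n : ℝ≥0∞) ^ 2 * ((2 * n) ^ d * μ B) := by
    calc (2 ^ d + 1) * V ≤ (n * a) * V := by gcongr
      _ = n * (a * V) := by ring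
      _ ≤ n * μ (Gd S H) := by gcongr
      _ = ∑ p ∈ Finset.range n, μ (A p) := by simp [hmA]
      _ ≤ _ := hbon
      _ ≤ _ := by gcongr
  rw [add_mul, one_mul, ENNReal.add_le_add_iff_left (ENNReal.mul_ne_top (by simp) hVf)] at hsum
  rw [mul_assoc]
  exact hsum

end Pool.Agent.H861R3.Beer
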