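import Mathlib

/-!
Linear changes of two coordinates in `ι → E` and their effect on the product Haar measure.
-/

set_option autoImplicit false
set_option linter.unusedSectionVars false

namespace Pool.Agent.H861R3.Beer

open Set MeasureTheory

variable {ι : Type*} [Fintype ι] [DecidableEq ι]
variable {E : Type*} [NormedAddCommGroup E] [NormedSpace ℝ E] [MeasurableSpace E] [BorelSpace E]
  [FiniteDimensional ℝ E]

/-- add `p` times coordinate `j` to coordinate `i` -/
def shear (E : Type*) [NormedAddCommGroup E] [NormedSpace ℝ E] (i j : ι) (p : ℝ) :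
    (ι → E) →ₗ[ℝ] (ι → E) :=
  LinearMap.id + (LinearMap.single ℝ (fun _ : ι => E) i).comp (p • LinearMap.proj j)

/-- scale coordinate `j` by `t` -/
def scale (E : Type*) [NormedAddCommGroup E] [NormedSpace ℝ E] (j : ι) (t : ℝ) :
    (ι → E) →ₗ[ℝ] (ι → E) :=
  LinearMap.pi fun l => ((if l = j then t else 1) • (LinearMap.id : E →ₗ[ℝ] E)).comp
    (LinearMap.proj l)

theorem shear_apply (i j : ι) (p : ℝ) (x : ι → E) (l : ι) :
    shear E i j p x l = if l = i then x i + p • x j else x l := by
  by_cases h : l = i
  · subst h; simp [shear]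
  · simp [shear, h]

theorem scale_apply (j : ι) (t : ℝ) (x : ι → E) (l : ι) :
    scale E j t x l = if l = j then t • x l else x l := by
  by_cases h : l = j
  · subst h; simp [scale]
  · simp [scale, h]

theorem det_scale (j : ι) (t : ℝ) :
    LinearMap.det (scale E j t) = t ^ Module.finrank ℝ E := by
  rw [scale, LinearMap.det_pi]
  rw [Finset.prod_eq_single j]
  · simp [LinearMap.det_smul]
  · intro l _ hl
    simp [hl]
  · intro h; exact absurd (Finset.mem_univ j) h

theorem det_shear {i j : ι} (hij : i ≠ j) (p : ℝ) :
    |LinearMap.det (shear E i j p)| = 1 := by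
  have h1 : (shear E i j p).comp (shear E i j (-p)) = LinearMap.id := by
    refine LinearMap.ext fun x => funext fun l => ?_
    by_cases h : l = i <;> simp [shear_apply, h, hij.symm]
  have h2 : ((scale E i (-1)).comp (shear E i j p)).comp (scale E i (-1)) = shear E i j (-p) := by
    refine LinearMap.ext fun x => funext fun l => ?_
    by_cases h : l = i <;> simp [shear_apply, scale_apply, h, hij.symm]
  have h3 : (scale E i (-1)).comp (scale E i (-1)) = LinearMap.id := by
    refine LinearMap.ext fun x => funext fun l => ?_
    by_cases h : l = i <;> simp [scale_apply, h]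
  have e1 := congrArg LinearMap.det h1
  have e2 := congrArg LinearMap.det h2
  have e3 := congrArg LinearMap.det h3
  rw [LinearMap.det_comp, LinearMap.det_id] at e1 e3
  rw [LinearMap.det_comp, LinearMap.det_comp] at e2
  have e4 : LinearMap.det (shear E i j p) * LinearMap.det (shear E i j p) = 1 := by
    linear_combination e1 + LinearMap.det (shear E i j p) * e2 -
      LinearMap.det (shear E i j p) * LinearMap.det (shear E i j p) * e3
  have e5 : LinearMap.det (shear E i j p) = 1 ∨ LinearMap.det (shear E i j p) = -1 :=
    mul_self_eq_one_iff.1 e4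
  rcases e5 with h | h <;> rw [h] <;> simp

/-- the map `(x_i, x_j) ↦ (x_i + p x_j, x_i + q x_j)` -/
def TT (i j : ι) (p q : ℝ) (x : ι → E) : ι → E :=
  fun l => if l = i then x i + p • x j else if l = j then x i + q • x j else x l

theorem TT_eq {i j : ι} (hij : i ≠ j) (p q : ℝ) (x : ι → E) :
    TT i j p q x = shear E j i 1 (scale E j (q - p) (shear E i j p x)) := by
  funext l
  simp only [TT, shear_apply, scale_apply]
  by_cases h1 : l = i
  · subst h1; simp [hij]
  · by_cases h2 : l = j
    · subst h2
      simp only [h1, if_false, if_true, hij]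
      rw [sub_smul]; simp; abel
    · simp [h1, h2]

theorem TT_continuous (i j : ι) (p q : ℝ) : Continuous (TT (E := E) i j p q) := by
  refine continuous_pi fun l => ?_
  unfold TT
  by_cases h1 : l = i
  · simp only [h1, if_true]; fun_prop
  · by_cases h2 : l = j
    · subst h2
      simp only [h1, if_false, if_true]; fun_prop
    · simp only [h1, h2, if_false]; fun_prop

variable (μ : Measure (ι → E)) [μ.IsAddHaarMeasure]

theorem measure_TT {i j : ι} (hij : i ≠ j) (p q : ℝ) (hpq : p < q) (B : Set (ι → E)) :
    μ (TT i j p q ⁻¹' B) = ENNReal.ofReal (((q - p) ^ Module.finrank ℝ E)⁻¹) * μ B := by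
  have hd1 : LinearMap.det (shear E i j p) ≠ 0 := by
    intro h; have := det_shear (E := E) hij p; rw [h] at this; simp at this
  have hd2 : LinearMap.det (shear E j i 1) ≠ 0 := by
    intro h; have := det_shear (E := E) hij.symm 1; rw [h] at this; simp at this
  have hd3 : LinearMap.det (scale E j (q - p)) ≠ 0 := by
    rw [det_scale]; exact pow_ne_zero _ (sub_pos.2 hpq).ne'
  have e : TT i j p q ⁻¹' B =
      (shear E i j p) ⁻¹' ((scale E j (q - p)) ⁻¹' ((shear E j i 1) ⁻¹' B)) := by
    ext x
    simp only [mem_preimage, TT_eq hij]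
  rw [e, Measure.addHaar_preimage_linearMap μ hd1, Measure.addHaar_preimage_linearMap μ hd3,
    Measure.addHaar_preimage_linearMap μ hd2, abs_inv, abs_inv, abs_inv, det_shear hij,
    det_shear hij.symm, det_scale]
  simp only [inv_one, ENNReal.ofReal_one, one_mul]
  rw [abs_of_pos (pow_pos (sub_pos.2 hpq) _)]

end Pool.Agent.H861R3.Beer
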