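import Pool.Agent.H861R3.BeerFold

/-!
Selection sort: from the star family to the complete family.
-/

set_option autoImplicit false
set_option linter.unusedSectionVars false

namespace Pool.Agent.H861R3.Beer

open Set MeasureTheory
open scoped ENNReal

variable {ι : Type*} [Fintype ι] [DecidableEq ι]
variable {E : Type*} [NormedAddCommGroup E] [NormedSpace ℝ E] [MeasurableSpace E] [BorelSpace E]
  [FiniteDimensional ℝ E] (ν : Measure E) [ν.IsAddHaarMeasure]

/-- a positive proportion of `H1`-good tuples forces a positive proportion of `H2`-good tuples -/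
def Imp (H1 H2 : Finset ι → Prop) : Prop :=
  ∀ a : ℝ≥0∞, a ≠ 0 → ∃ c : ℝ≥0∞, c ≠ 0 ∧ ∀ S : Set E, MeasurableSet S → ν S ≠ ⊤ →
    a * ν S ^ Fintype.card ι ≤ Measure.pi (fun _ : ι => ν) (Gd S H1) →
    c * ν S ^ Fintype.card ι ≤ Measure.pi (fun _ : ι => ν) (Gd S H2)

variable {ν}

theorem Imp.trans {H1 H2 H3 : Finset ι → Prop} (h : Imp ν H1 H2) (h' : Imp ν H2 H3) :
    Imp ν H1 H3 := by
  intro a ha
  obtain ⟨b, hb, h1⟩ := h a ha
  obtain ⟨c, hc, h2⟩ := h' b hb
  exact ⟨c, hc, fun S hS hf h3 => h2 S hS hf (h1 S hS hf h3)⟩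

theorem Imp.of_sub {H1 H2 : Finset ι → Prop} (h : ∀ W, H2 W → H1 W) : Imp ν H1 H2 := by
  intro a ha
  exact ⟨a, ha, fun S hS hf h3 => h3.trans (measure_mono (Gd_anti S H1 H2 h))⟩

theorem Imp.fold {i j : ι} (hij : i ≠ j) (H : Finset ι → Prop) (W0 : Finset ι) (hW0 : H W0)
    (hi : i ∈ W0) (hj : j ∈ W0) (hH : ∀ W, H W → j ∈ W → i ∈ W) :
    Imp ν H (fun W => H W ∨ H (W.map (Equiv.swap i j).toEmbedding)) := by
  intro a ha
  obtain ⟨n, hn⟩ := ENNReal.exists_nat_mul_gt (a := a)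
    (b := 2 ^ (Module.finrank ℝ E) + 1) ha (by simp)
  have hn0 : 0 < n := by
    rcases Nat.eq_zero_or_pos n with h | h
    · subst h; simp at hn
    · exact h
  set K : ℝ≥0∞ := (n : ℝ≥0∞) ^ 2 * (2 * n) ^ (Module.finrank ℝ E) with hK
  have hn0' : (n : ℝ≥0∞) ≠ 0 := by exact_mod_cast hn0.ne'
  have hK0 : K ≠ 0 := by
    rw [hK]
    exact mul_ne_zero (pow_ne_zero _ hn0') (pow_ne_zero _ (mul_ne_zero (by simp) hn0'))
  have hKt : K ≠ ⊤ := by
    rw [hK]
    exact ENNReal.mul_ne_top (ENNReal.pow_ne_top (ENNReal.natCast_ne_top n))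
      (ENNReal.pow_ne_top (ENNReal.mul_ne_top (by simp) (ENNReal.natCast_ne_top n)))
  refine ⟨K⁻¹, ENNReal.inv_ne_zero.2 hKt, fun S hS hf h3 => ?_⟩
  have hpi : Measure.pi (fun _ : ι => ν) (Set.pi univ fun _ => S) = ν S ^ Fintype.card ι := by
    rw [Measure.pi_pi]; simp
  have := fold_core (Measure.pi (fun _ : ι => ν)) hij S hS (ν S ^ Fintype.card ι) hpi
    (ENNReal.pow_ne_top hf) H W0 hW0 hi hj hH n hn0 a hn.le h3
  rw [← hK] at this
  calc K⁻¹ * ν S ^ Fintype.card ι ≤ K⁻¹ * (K * _) := by gcongr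
    _ = _ := by rw [← mul_assoc, ENNReal.inv_mul_cancel hK0 hKt, one_mul]

/-- all `(k+1)`-sets containing `C` -/
def Star (k : ℕ) (C : Finset ι) (W : Finset ι) : Prop := W.card = k + 1 ∧ C ⊆ W

/-- intermediate family -/
def Mid (k : ℕ) (C : Finset ι) (i : ι) (F : Finset ι) (W : Finset ι) : Prop :=
  W.card = k + 1 ∧ C.erase i ⊆ W ∧ (i ∈ W ∨ ∃ l ∈ F, l ∈ W)

theorem mid_step (k : ℕ) (hk : k + 1 ≤ Fintype.card ι) (C : Finset ι) (hC : C.card ≤ k) (i : ι)
    (hi : i ∈ C) (F : Finset ι) (j : ι) (hjC : j ∉ C) :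
    Imp ν (Mid k C i F) (Mid k C i (insert j F)) := by
  have hij : i ≠ j := fun h => hjC (h ▸ hi)
  have s1 : Imp ν (Mid k C i F) (fun W => Mid k C i F W ∧ (j ∈ W → i ∈ W)) :=
    Imp.of_sub fun W hW => hW.1
  obtain ⟨W0, hW0, hW0c⟩ : ∃ W0 : Finset ι, insert j C ⊆ W0 ∧ W0.card = k + 1 := by
    have h1 : (insert j C).card ≤ k + 1 := (Finset.card_insert_le _ _).trans (by omega)
    obtain ⟨W0, h2, h3⟩ := Finset.exists_superset_card_eq h1 hk
    exact ⟨W0, h2, h3⟩
  have hiW : i ∈ W0 := hW0 (Finset.mem_insert_of_mem hi)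
  have hjW : j ∈ W0 := hW0 (Finset.mem_insert_self _ _)
  have s2 := Imp.fold (ν := ν) hij (fun W => Mid k C i F W ∧ (j ∈ W → i ∈ W)) W0
    ⟨⟨hW0c, (Finset.erase_subset _ _).trans ((Finset.subset_insert _ _).trans hW0), Or.inl hiW⟩,
      fun _ => hiW⟩ hiW hjW (fun W hW => hW.2)
  refine s1.trans (s2.trans (Imp.of_sub ?_))
  rintro W ⟨h1, h2, h3⟩
  by_cases hj : j ∈ W
  · by_cases hiW' : i ∈ W
    · left
      exact ⟨⟨h1, h2, Or.inl hiW'⟩, fun _ => hiW'⟩
    · right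
      have hmem : ∀ l, l ∈ W.map (Equiv.swap i j).toEmbedding ↔ Equiv.swap i j l ∈ W := by
        intro l; rw [Finset.mem_map_equiv, Equiv.symm_swap]
      refine ⟨⟨by rw [Finset.card_map]; exact h1, ?_, Or.inl ?_⟩, fun h => ?_⟩
      · intro l hl
        rw [hmem]
        have hli : l ≠ i := Finset.ne_of_mem_erase hl
        have hlj : l ≠ j := fun h => hjC (h ▸ Finset.mem_of_mem_erase hl)
        rw [Equiv.swap_apply_of_ne_of_ne hli hlj]
        exact h2 hl
      · rw [hmem, Equiv.swap_apply_left]; exact hj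
      · rw [hmem, Equiv.swap_apply_right] at h
        exact absurd h hiW'
  · left
    refine ⟨⟨h1, h2, ?_⟩, fun h => absurd h hj⟩
    rcases h3 with h3 | ⟨l, hl, hlW⟩
    · exact Or.inl h3
    · rw [Finset.mem_insert] at hl
      rcases hl with rfl | hl
      · exact absurd hlW hj
      · exact Or.inr ⟨l, hl, hlW⟩

theorem mid_all (k : ℕ) (hk : k + 1 ≤ Fintype.card ι) (C : Finset ι) (hC : C.card ≤ k) (i : ι)
    (hi : i ∈ C) (F : Finset ι) (hF : Disjoint F C) :
    Imp ν (Star k C) (Mid k C i F) := by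
  induction F using Finset.induction_on with
  | empty =>
    refine Imp.of_sub ?_
    rintro W ⟨h1, h2, h3⟩
    refine ⟨h1, fun l hl => ?_⟩
    have hiW : i ∈ W := by
      rcases h3 with h3 | ⟨l, hl, _⟩
      · exact h3
      · simp at hl
    by_cases h : l = i
    · rw [h]; exact hiW
    · exact h2 (Finset.mem_erase.2 ⟨h, hl⟩)
  | insert j F hjF ih =>
    rw [Finset.disjoint_insert_left] at hF
    exact (ih hF.2).trans (mid_step k hk C hC i hi F j hF.1)

theorem star_erase (k : ℕ) (hk : k + 1 ≤ Fintype.card ι) (C : Finset ι) (hC : C.card ≤ k) (i : ι)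
    (hi : i ∈ C) : Imp ν (Star k C) (Star k (C.erase i)) := by
  refine (mid_all k hk C hC i hi (Finset.univ \ C) Finset.sdiff_disjoint).trans (Imp.of_sub ?_)
  rintro W ⟨h1, h2⟩
  refine ⟨h1, h2, ?_⟩
  have hcard : (C.erase i).card < W.card := by
    rw [Finset.card_erase_of_mem hi, h1]; omega
  obtain ⟨l, hl1, hl2⟩ := Finset.exists_mem_notMem_of_card_lt_card hcard
  by_cases h : l = i
  · left; rw [← h]; exact hl1
  · right
    refine ⟨l, ?_, hl1⟩
    rw [Finset.mem_sdiff]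
    refine ⟨Finset.mem_univ _, fun hlC => hl2 (Finset.mem_erase.2 ⟨h, hlC⟩)⟩

theorem star_empty (k : ℕ) (hk : k + 1 ≤ Fintype.card ι) (C : Finset ι) (hC : C.card ≤ k) :
    Imp ν (Star k C) (Star k (∅ : Finset ι)) := by
  induction C using Finset.induction_on with
  | empty => exact Imp.of_sub fun W hW => hW
  | insert i C hiC ih =>
    have h1 := star_erase (ν := ν) k hk (insert i C) hC i (Finset.mem_insert_self _ _)
    rw [Finset.erase_insert hiC] at h1
    exact h1.trans (ih ((Finset.card_le_card (Finset.subset_insert _ _)).trans hC))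

end Pool.Agent.H861R3.Beer
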