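import Pool.Agent.H861R3.BeerSel

/-!
The star family has positive density (Markov).
-/

set_option autoImplicit false
set_option linter.unusedSectionVars false

namespace Pool.Agent.H861R3.Beer

open Set MeasureTheory
open scoped ENNReal

variable {E : Type*} [NormedAddCommGroup E] [NormedSpace ℝ E] [MeasurableSpace E] [BorelSpace E]
  [FiniteDimensional ℝ E] (ν : Measure E) [ν.IsAddHaarMeasure]

/-- tuples spanning a simplex inside `S` -/
def Conv (k : ℕ) (S : Set E) : Set (Fin (k + 1) → E) :=
  {x | (∀ i, x i ∈ S) ∧ convexHull ℝ (Set.range x) ⊆ S}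

theorem Conv_eq (k : ℕ) (S : Set E) :
    Conv k S = Gd S (fun W : Finset (Fin (k + 1)) => W = Finset.univ) := by
  ext x
  simp [Conv, Gd]

theorem start_abs (k : ℕ) (J : Type) [Fintype J] (S : Set E) (hS : MeasurableSet S) (V : ℝ≥0∞)
    (hV : ν S = V) (hV0 : V ≠ 0) (hVf : V ≠ ⊤)
    (D : Set (E × (Fin k → E))) (hD : MeasurableSet D) (hDS : ∀ p ∈ D, p.1 ∈ S ∧ ∀ i, p.2 i ∈ S)
    (a : ℝ≥0∞) (ha : a * V ^ (k + 1) ≤ (ν.prod (Measure.pi fun _ : Fin k => ν)) D) :
    (a / 2) ^ (Fintype.card J + 1) * V ^ (k + Fintype.card J) ≤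
      ((Measure.pi fun _ : Fin k => ν).prod (Measure.pi fun _ : J => ν))
        {p | ∀ j, (p.2 j, p.1) ∈ D} := by
  classical
  set φ : (Fin k → E) → ℝ≥0∞ := fun u => ν ((fun z => (z, u)) ⁻¹' D) with hφ
  have hφm : Measurable φ := measurable_measure_prodMk_right hD
  set U : Set (Fin k → E) := {u | (a / 2) * V ≤ φ u} with hU
  have hUm : MeasurableSet U := measurableSet_le measurable_const hφm
  have hφV : ∀ u, φ u ≤ V := by
    intro u
    rw [← hV]
    exact measure_mono fun z hz => (hDS _ hz).1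
  have hφ0 : ∀ u, u ∉ (Set.pi univ fun _ : Fin k => S) → φ u = 0 := by
    intro u hu
    have : (fun z => (z, u)) ⁻¹' D = ∅ := by
      rw [eq_empty_iff_forall_notMem]
      intro z hz
      exact hu fun i _ => (hDS _ hz).2 i
    simp only [hφ]
    rw [this]; simp
  have hint : (ν.prod (Measure.pi fun _ : Fin k => ν)) D = ∫⁻ u, φ u ∂(Measure.pi fun _ : Fin k => ν) :=
    Measure.prod_apply_symm hD
  have hpi : (Measure.pi fun _ : Fin k => ν) (Set.pi univ fun _ : Fin k => S) = V ^ k := by
    rw [Measure.pi_pi]; simp [hV]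
  have hSm : MeasurableSet (Set.pi univ fun _ : Fin k => S) := MeasurableSet.univ_pi fun _ => hS
  have hbound : ∫⁻ u, φ u ∂(Measure.pi fun _ : Fin k => ν) ≤
      V * (Measure.pi fun _ : Fin k => ν) U + (a / 2) * V * V ^ k := by
    calc ∫⁻ u, φ u ∂(Measure.pi fun _ : Fin k => ν)
        ≤ ∫⁻ u, (U.indicator (fun _ => V) u +
            (Set.pi univ fun _ : Fin k => S).indicator (fun _ => (a / 2) * V) u)
              ∂(Measure.pi fun _ : Fin k => ν) := by
          refine lintegral_mono fun u => ?_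
          by_cases h1 : u ∈ U
          · simp only [indicator_of_mem h1]
            exact (hφV u).trans le_self_add
          · by_cases h2 : u ∈ (Set.pi univ fun _ : Fin k => S)
            · rw [indicator_of_notMem h1, indicator_of_mem h2, zero_add]
              exact (not_le.1 h1).le
            · rw [hφ0 u h2]; exact zero_le
      _ = _ := by
          rw [lintegral_add_left (measurable_const.indicator hUm),
            lintegral_indicator_const hUm, lintegral_indicator_const hSm, hpi]
  have hUge : (a / 2) * V ^ k ≤ (Measure.pi fun _ : Fin k => ν) U := by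
    have h1 : a * V ^ (k + 1) ≤ V * (Measure.pi fun _ : Fin k => ν) U + (a / 2) * V * V ^ k :=
      ha.trans (hint ▸ hbound)
    have hUfin : (a / 2) * V * V ^ k ≠ ⊤ := by
      have h3 : (ν.prod (Measure.pi fun _ : Fin k => ν)) D ≤ V * V ^ k := by
        calc _ ≤ (ν.prod (Measure.pi fun _ : Fin k => ν)) (S ×ˢ (Set.pi univ fun _ : Fin k => S)) :=
              measure_mono fun p hp => ⟨(hDS p hp).1, fun i _ => (hDS p hp).2 i⟩
          _ = _ := by rw [Measure.prod_prod, hV, hpi]
      have h4 : a * V ^ (k + 1) ≠ ⊤ :=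
        ne_top_of_le_ne_top (ENNReal.mul_ne_top hVf (ENNReal.pow_ne_top hVf)) (ha.trans h3)
      refine ne_top_of_le_ne_top h4 ?_
      rw [mul_assoc, ← pow_succ']
      gcongr
      exact ENNReal.half_le_self
    have h2 : (a / 2) * V * V ^ k + (a / 2) * V * V ^ k = a * V ^ (k + 1) := by
      rw [← add_mul, ← add_mul, ENNReal.add_halves, pow_succ']
      ring
    rw [← h2, ENNReal.add_le_add_iff_right hUfin] at h1
    have h5 : V * ((a / 2) * V ^ k) ≤ V * (Measure.pi fun _ : Fin k => ν) U := by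
      calc _ = (a / 2) * V * V ^ k := by ring
        _ ≤ _ := h1
    exact (ENNReal.mul_le_mul_iff_right hV0 hVf).1 h5
  have hGm : MeasurableSet {p : (Fin k → E) × (J → E) | ∀ j, (p.2 j, p.1) ∈ D} := by
    have : {p : (Fin k → E) × (J → E) | ∀ j, (p.2 j, p.1) ∈ D} =
        ⋂ j, (fun p : (Fin k → E) × (J → E) => (p.2 j, p.1)) ⁻¹' D := by
      ext p; simp
    rw [this]
    exact MeasurableSet.iInter fun j => (by fun_prop : Measurable
      (fun p : (Fin k → E) × (J → E) => (p.2 j, p.1))) hD
  rw [Measure.prod_apply hGm]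
  have hsl : ∀ u : Fin k → E, (Measure.pi fun _ : J => ν)
      (Prod.mk u ⁻¹' {p : (Fin k → E) × (J → E) | ∀ j, (p.2 j, p.1) ∈ D}) =
      φ u ^ Fintype.card J := by
    intro u
    have : Prod.mk u ⁻¹' {p : (Fin k → E) × (J → E) | ∀ j, (p.2 j, p.1) ∈ D} =
        Set.pi univ fun _ : J => ((fun z => (z, u)) ⁻¹' D) := by
      ext y; simp
    rw [this, Measure.pi_pi]
    simp [hφ]
  simp only [hsl]
  calc (a / 2) ^ (Fintype.card J + 1) * V ^ (k + Fintype.card J)
      = ((a / 2) * V) ^ Fintype.card J * ((a / 2) * V ^ k) := by ring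
    _ ≤ ((a / 2) * V) ^ Fintype.card J * (Measure.pi fun _ : Fin k => ν) U := by gcongr
    _ = ∫⁻ u, U.indicator (fun _ => ((a / 2) * V) ^ Fintype.card J) u
          ∂(Measure.pi fun _ : Fin k => ν) := by rw [lintegral_indicator_const hUm]
    _ ≤ ∫⁻ u, φ u ^ Fintype.card J ∂(Measure.pi fun _ : Fin k => ν) := by
        refine lintegral_mono fun u => ?_
        by_cases h1 : u ∈ U
        · rw [indicator_of_mem h1]
          have h2 : (a / 2) * V ≤ φ u := h1
          gcongr
        · rw [indicator_of_notMem h1]; exact zero_le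

end Pool.Agent.H861R3.Beer
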