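import Pool.Agent.H861R3.BeerStart

/-!
The star family has positive density: transfer to the index type `Fin k ⊕ J`.
-/

set_option autoImplicit false
set_option linter.unusedSectionVars false

namespace Pool.Agent.H861R3.Beer

open Set MeasureTheory
open scoped ENNReal

variable {E : Type*} [NormedAddCommGroup E] [NormedSpace ℝ E] [MeasurableSpace E] [BorelSpace E]
  [FiniteDimensional ℝ E] (ν : Measure E) [ν.IsAddHaarMeasure]

theorem start (k : ℕ) (J : Type) [Fintype J] [DecidableEq J] [Nonempty J] (S : Set E) (hS : MeasurableSet S)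
    (hV0 : ν S ≠ 0) (hVf : ν S ≠ ⊤) (a : ℝ≥0∞)
    (ha : a * ν S ^ (k + 1) ≤ (Measure.pi fun _ : Fin (k + 1) => ν) (Conv k S)) :
    (a / 2) ^ (Fintype.card J + 1) * ν S ^ (Fintype.card (Fin k ⊕ J)) ≤
      (Measure.pi fun _ : Fin k ⊕ J => ν)
        (Gd S (Star k (Finset.univ.map (⟨Sum.inl, Sum.inl_injective⟩ : Fin k ↪ Fin k ⊕ J)))) := by
  classical
  have hnull : NullMeasurableSet (Conv k S) (Measure.pi fun _ : Fin (k + 1) => ν) := by
    rw [Conv_eq]; exact Gd_null _ S hS _
  obtain ⟨C, hCsub, hCm, hCeq⟩ := hnull.exists_measurable_subset_ae_eq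
  have hCmeas : (Measure.pi fun _ : Fin (k + 1) => ν) C =
      (Measure.pi fun _ : Fin (k + 1) => ν) (Conv k S) := measure_congr hCeq
  let e := MeasurableEquiv.piFinSuccAbove (fun _ : Fin (k + 1) => E) 0
  have he : MeasurePreserving e (Measure.pi fun _ : Fin (k + 1) => ν)
      (ν.prod (Measure.pi fun _ : Fin k => ν)) :=
    measurePreserving_piFinSuccAbove (fun _ : Fin (k + 1) => ν) 0
  set D : Set (E × (Fin k → E)) := e.symm ⁻¹' C with hD
  have hDm : MeasurableSet D := e.symm.measurable hCm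
  have hDmeas : (ν.prod (Measure.pi fun _ : Fin k => ν)) D =
      (Measure.pi fun _ : Fin (k + 1) => ν) C := by
    exact he.symm.measure_preimage hCm.nullMeasurableSet
  have hsymm : ∀ (z : E) (u : Fin k → E), e.symm (z, u) = Fin.cons z u := by
    intro z u
    ext i
    refine Fin.cases ?_ (fun i => ?_) i
    · simp [e, MeasurableEquiv.piFinSuccAbove]
    · simp [e, MeasurableEquiv.piFinSuccAbove]
  have hDS : ∀ p ∈ D, p.1 ∈ S ∧ ∀ i, p.2 i ∈ S := by
    rintro ⟨z, u⟩ hp
    have h1 : Fin.cons z u ∈ Conv k S := by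
      rw [← hsymm]; exact hCsub hp
    exact ⟨by simpa using h1.1 0, fun i => by simpa using h1.1 i.succ⟩
  have hmain := start_abs ν k J S hS (ν S) rfl hV0 hVf D hDm hDS a
    (by rw [hDmeas, hCmeas]; exact ha)
  have hcard : Fintype.card (Fin k ⊕ J) = k + Fintype.card J := by simp
  rw [hcard]
  refine hmain.trans ?_
  have hs := measurePreserving_sumPiEquivProdPi (fun _ : Fin k ⊕ J => ν)
  have hGm : MeasurableSet {p : (Fin k → E) × (J → E) | ∀ j, (p.2 j, p.1) ∈ D} := by
    have : {p : (Fin k → E) × (J → E) | ∀ j, (p.2 j, p.1) ∈ D} =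
        ⋂ j, (fun p : (Fin k → E) × (J → E) => (p.2 j, p.1)) ⁻¹' D := by
      ext p; simp
    rw [this]
    exact MeasurableSet.iInter fun j => (by fun_prop : Measurable
      (fun p : (Fin k → E) × (J → E) => (p.2 j, p.1))) hDm
  rw [← hs.measure_preimage hGm.nullMeasurableSet]
  refine measure_mono fun x hx => ?_
  have hx' : ∀ j : J, (x (Sum.inr j), fun i => x (Sum.inl i)) ∈ D := hx
  refine ⟨?_, ?_⟩
  · rintro (i | j)
    · exact (hDS _ (hx' (Classical.arbitrary J))).2 i
    · exact (hDS _ (hx' j)).1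
  · rintro W ⟨hW1, hW2⟩
    set core : Finset (Fin k ⊕ J) :=
      Finset.univ.map (⟨Sum.inl, Sum.inl_injective⟩ : Fin k ↪ Fin k ⊕ J) with hcore
    have hc1 : core.card = k := by rw [hcore, Finset.card_map]; simp
    have hc2 : (W \ core).card = 1 := by
      rw [Finset.card_sdiff_of_subset hW2, hW1, hc1]; omega
    obtain ⟨w, hw⟩ := Finset.card_eq_one.1 hc2
    have hwm : w ∈ W \ core := by rw [hw]; exact Finset.mem_singleton_self w
    obtain ⟨j, rfl⟩ : ∃ j, w = Sum.inr j := by
      rcases w with i | j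
      · exfalso
        rw [Finset.mem_sdiff] at hwm
        exact hwm.2 (Finset.mem_map.2 ⟨i, Finset.mem_univ _, rfl⟩)
      · exact ⟨j, rfl⟩
    have h1 : Fin.cons (x (Sum.inr j)) (fun i => x (Sum.inl i)) ∈ Conv k S := by
      rw [← hsymm]; exact hCsub (hx' j)
    refine subset_trans (convexHull_mono ?_) h1.2
    rintro _ ⟨l, hl, rfl⟩
    rcases l with i | j'
    · exact ⟨i.succ, by simp⟩
    · have : Sum.inr j' ∈ W \ core := by
        rw [Finset.mem_sdiff]
        refine ⟨hl, fun h => ?_⟩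
        rw [Finset.mem_map] at h
        obtain ⟨i, _, hi⟩ := h
        exact absurd hi (by simp)
      rw [hw, Finset.mem_singleton] at this
      exact ⟨0, by rw [this]; simp⟩

end Pool.Agent.H861R3.Beer
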